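import Pool.Agent.Helper65.Delone.Goals

/-!
# Packet G of MP_c45da2_co: third points near a good pair
-/

set_option autoImplicit false

namespace Pool.Agent.Helper79.Delone

open Module Pool.Agent.Helper65.Delone
open scoped RealInnerProductSpace

variable {E : Type*} [NormedAddCommGroup E] [InnerProductSpace ℝ E]

theorem eq_zero_of_mem_orth {U V : Submodule ℝ E} (h : ∀ u ∈ U, ∀ w ∈ V, ⟪u, w⟫ = 0) {e : E}
    (hu : e ∈ U) (hv : e ∈ V) : e = 0 :=
  inner_self_eq_zero.1 (h e hu e hv)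

/-- An isometry that maps a finite-dimensional subspace into itself maps it onto itself. -/
theorem symm_mem {U : Submodule ℝ E} [FiniteDimensional ℝ U] (A : E ≃ₗᵢ[ℝ] E)
    (h : ∀ w ∈ U, A w ∈ U) {p : E} (hp : p ∈ U) : A.symm p ∈ U := by
  set T : U →ₗ[ℝ] U := (A.toLinearEquiv.toLinearMap).restrict h with hT
  have hinj : Function.Injective T := by
    intro a b hab
    have h1 : A (a : E) = A (b : E) := congrArg Subtype.val hab
    exact Subtype.ext (A.injective h1)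
  have hsurj := LinearMap.injective_iff_surjective.1 hinj
  obtain ⟨a, ha⟩ := hsurj ⟨p, hp⟩
  have h1 : A (a : E) = p := congrArg Subtype.val ha
  rw [← h1, LinearIsometryEquiv.symm_apply_apply]
  exact a.2

/-- The case `z - x ∈ Q x`. -/
theorem lemC_aux [FiniteDimensional ℝ E] (hI : StepI E) (X : Set E) (L W : ℝ)
    (S : E → Set (E ≃ₗᵢ[ℝ] E)) (Q : E → Submodule ℝ E) (hF : Frame X L W S Q)
    (x y z c : E) (hx : x ∈ X) (hy : y ∈ X) (hz : z ∈ X)
    (hUV : ∀ u ∈ Q x, ∀ w ∈ Q y, ⟪u, w⟫ = 0) (hcx : c - x ∈ Q x) (hcy : c - y ∈ Q y)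
    (hcx0 : c ≠ x) (hzc : z ≠ c)
    (hxyL : ‖y - x‖ ≤ L) (hxyW : ‖y - x‖ < 40 * W)
    (hzyL : ‖z - y‖ ≤ L) (hzyW : ‖z - y‖ < 40 * W) (hzx : z - x ∈ Q x) :
    z - c ∈ Q z ∧ z - c ∈ Q x ∧ Q z = Q x := by
  have hzcU : z - c ∈ Q x := by
    have := (Q x).sub_mem hzx hcx
    rwa [sub_sub_sub_cancel_right] at this
  have hzyV : z - y ∉ Q y := by
    intro h
    have h1 : z - c ∈ Q y := by
      have := (Q y).sub_mem h hcy
      rwa [sub_sub_sub_cancel_right] at this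
    exact hzc (sub_eq_zero.1 (eq_zero_of_mem_orth hUV hzcU h1))
  obtain ⟨hVz, h, hh, p, hp, hhp, -, hA⟩ := hI X L W S Q hF y hy z hz hzyL hzyW hzyV
  have he : h - (c - y) = (z - c) - p := by
    have : z - y = h + p := hhp
    have h2 : z = y + h + p := by rw [← sub_add_cancel z y, this]; abel
    rw [h2]
    abel
  have heV : h - (c - y) ∈ Q y := (Q y).sub_mem hh hcy
  have he0 : h - (c - y) = 0 := by
    rw [← inner_self_eq_zero (𝕜 := ℝ)]
    nth_rewrite 2 [he]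
    rw [inner_sub_right, hVz _ heV _ hp, real_inner_comm, hUV _ hzcU _ heV, sub_zero]
  have hpz : p = z - c := by
    rw [he0] at he
    exact (sub_eq_zero.1 he.symm).symm
  rw [hpz] at hp hA
  refine ⟨hp, hzcU, ?_⟩
  have hxyV : x - y ∉ Q y := by
    intro h1
    have h2 : c - x ∈ Q y := by
      have := (Q y).sub_mem hcy h1
      rwa [sub_sub_sub_cancel_right] at this
    exact hcx0 (sub_eq_zero.1 (eq_zero_of_mem_orth hUV hcx h2))
  obtain ⟨_, h₂, _, p₂, _, _, _, hA'⟩ := hI X L W S Q hF y hy x hx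
    (by rwa [norm_sub_rev]) (by rwa [norm_sub_rev]) hxyV
  obtain ⟨A, hAS⟩ := hF.S_ne y hy
  have h1 := (hA' A hAS).1
  have h2 := (hA A hAS).2
  have h3 : Q z ≤ Q x := by
    rw [← h2, Submodule.span_le]
    intro e he
    rcases he with rfl | he
    · exact (Q x).sub_mem (h1 _ hzcU) hzcU
    · rw [Set.mem_singleton_iff] at he
      subst he
      exact (Q x).sub_mem (symm_mem A h1 hzcU) hzcU
  exact Submodule.eq_of_le_of_finrank_eq h3 (by rw [hF.Q_rank z hz, hF.Q_rank x hx])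

theorem lemC [FiniteDimensional ℝ E] (hI : StepI E) : LemC E := by
  intro X L W S Q hF x hx y hy z hz c hUV hcx hcy hcx0 hcy0 hzc hxyL hxyW hzxL hzxW hzyL hzyW
  have hVU : ∀ u ∈ Q y, ∀ w ∈ Q x, ⟪u, w⟫ = 0 := fun u hu w hw => by
    rw [real_inner_comm]; exact hUV w hw u hu
  by_cases h1 : z - x ∈ Q x
  · obtain ⟨h2, h3, h4⟩ := lemC_aux hI X L W S Q hF x y z c hx hy hz hUV hcx hcy hcx0 hzc
      hxyL hxyW hzyL hzyW h1
    exact ⟨h2, Or.inl ⟨h3, h4⟩⟩
  by_cases h2 : z - y ∈ Q y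
  · obtain ⟨h3, h4, h5⟩ := lemC_aux hI X L W S Q hF y x z c hy hx hz hVU hcy hcx hcy0 hzc
      (by rwa [norm_sub_rev]) (by rwa [norm_sub_rev]) hzxL hzxW h2
    exact ⟨h3, Or.inr (Or.inl ⟨h4, h5⟩)⟩
  obtain ⟨hUz, h, hh, p, hp, hhp, -, -⟩ := hI X L W S Q hF x hx z hz hzxL hzxW h1
  obtain ⟨hVz, h', hh', p', hp', hhp', -, -⟩ := hI X L W S Q hF y hy z hz hzyL hzyW h2
  have hf : ((c - x) - h) - ((c - y) - h') = p - p' := by
    have h3 : h = z - x - p := by rw [hhp]; abel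
    have h4 : h' = z - y - p' := by rw [hhp']; abel
    rw [h3, h4]
    abel
  have hgU : (c - x) - h ∈ Q x := (Q x).sub_mem hcx hh
  have hgV : (c - y) - h' ∈ Q y := (Q y).sub_mem hcy hh'
  have hpp : p - p' ∈ Q z := (Q z).sub_mem hp hp'
  have hf0 : ((c - x) - h) - ((c - y) - h') = 0 := by
    rw [← inner_self_eq_zero (𝕜 := ℝ)]
    nth_rewrite 2 [hf]
    rw [inner_sub_left, hUz _ hgU _ hpp, hVz _ hgV _ hpp, sub_zero]
  have hg : (c - x) - h = (c - y) - h' := sub_eq_zero.1 hf0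
  have hg0 : (c - x) - h = 0 := eq_zero_of_mem_orth hUV hgU (by rw [hg]; exact hgV)
  have hzcp : z - c = p := by
    have h3 : h = c - x := (sub_eq_zero.1 hg0).symm
    rw [h3] at hhp
    have h4 : p = (z - x) - (c - x) := by rw [hhp]; abel
    rw [h4]
    abel
  refine ⟨by rw [hzcp]; exact hp, Or.inr (Or.inr ⟨hUz, hVz⟩)⟩

end Pool.Agent.Helper79.Delone
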